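import Mathlib

/-!
Reciprocals of Fermat polynomials in characteristic `p`.
-/

namespace Q48.Fermat

open MvPolynomial

section core

variable {L : Type*} [Field L] {p : ℕ} [hp : Fact p.Prime] [CharP L p] {m : ℕ}

/-- derivatives have no coefficients at exponents all congruent to `-1` -/
theorem coeff_pderiv_eq_zero (H : MvPolynomial (Fin m) L) (i : Fin m) (a : Fin m →₀ ℕ)
    (ha : ((a i : L) + 1) = 0) : coeff a (pderiv i H) = 0 := by
  rw [coeff_pderiv, ha, mul_zero]

omit [CharP L p] hp in
theorem cast_pred [CharP L p] (hp1 : 1 ≤ p) :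
    (((p - 1 : ℕ) : MvPolynomial (Fin m) L)) = -1 := by
  rw [Nat.cast_sub hp1, CharP.cast_eq_zero, Nat.cast_one, zero_sub]

theorem key_identity (F Q : MvPolynomial (Fin m) L) (P : Fin m → MvPolynomial (Fin m) L)
    (h : Q ^ 2 = F * ∑ i, (pderiv i (P i) * Q - P i * pderiv i Q)) :
    F ^ (p - 1) * Q ^ p = ∑ i, pderiv i (F ^ p * (P i * Q ^ (p - 1))) := by
  have hp2 : 2 ≤ p := hp.out.two_le
  have h1 : ∀ i, pderiv i (F ^ p * (P i * Q ^ (p - 1)))
      = F ^ p * (Q ^ (p - 2) * (pderiv i (P i) * Q - P i * pderiv i Q)) := by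
    intro i
    rw [pderiv_mul, pderiv_pow, CharP.cast_eq_zero, zero_mul, zero_mul, zero_mul, zero_add,
      pderiv_mul, pderiv_pow, cast_pred (by omega)]
    have e1 : p - 1 = (p - 2) + 1 := by omega
    have e2 : p - 1 - 1 = p - 2 := by omega
    rw [e2, e1, pow_succ]
    ring
  rw [Finset.sum_congr rfl fun i _ => h1 i, ← Finset.mul_sum, ← Finset.mul_sum]
  have e3 : p = (p - 1) + 1 := by omega
  have e4 : p = (p - 2) + 2 := by omega
  calc F ^ (p - 1) * Q ^ p = F ^ (p - 1) * (Q ^ (p - 2) * Q ^ 2) := by
        rw [← pow_add, ← e4]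
    _ = F ^ (p - 1) * F * (Q ^ (p - 2) * ∑ i, (pderiv i (P i) * Q - P i * pderiv i Q)) := by
        rw [h]; ring
    _ = _ := by rw [← pow_succ, ← e3]

omit [CharP L p] hp in
/-- the coefficient of the product of all the variables to the power `p - 1` -/
theorem coeff_fermat (hm : m ≠ 0) (t : ℕ) :
    coeff (Finsupp.equivFunOnFinite.symm fun _ : Fin m => m * t)
      ((∑ i : Fin m, (X i : MvPolynomial (Fin m) L) ^ m) ^ (m * t))
      = (Nat.multinomial Finset.univ (fun _ : Fin m => t) : L) := by
  rw [Finset.sum_pow_eq_sum_piAntidiag, coeff_sum]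
  have hmon : ∀ k : Fin m → ℕ, ∏ i : Fin m, ((X i : MvPolynomial (Fin m) L) ^ m) ^ k i
      = monomial (Finsupp.equivFunOnFinite.symm fun i => m * k i) 1 := by
    intro k
    rw [monomial_eq, C_1, one_mul, Finsupp.prod_fintype _ _ (fun i => pow_zero _)]
    refine Finset.prod_congr rfl fun i _ => ?_
    rw [← pow_mul]
    rfl
  have hcast : ∀ (c : ℕ) (H : MvPolynomial (Fin m) L) (a : Fin m →₀ ℕ),
      coeff a ((c : MvPolynomial (Fin m) L) * H) = (c : L) * coeff a H := by
    intro c H a
    rw [← map_natCast (C : L →+* MvPolynomial (Fin m) L), coeff_C_mul]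
  rw [Finset.sum_eq_single (fun _ : Fin m => t)]
  · rw [hcast, hmon, coeff_monomial, if_pos rfl, mul_one]
  · intro k _ hk
    rw [hcast, hmon, coeff_monomial, if_neg, mul_zero]
    intro h
    apply hk
    have h2 := Finsupp.equivFunOnFinite.symm.injective h
    funext i
    exact Nat.eq_of_mul_eq_mul_left (Nat.pos_of_ne_zero hm) (congrFun h2 i)
  · intro h
    exfalso
    apply h
    rw [Finset.mem_piAntidiag]
    refine ⟨?_, fun i _ => Finset.mem_univ i⟩
    simp

omit [Field L] [CharP L p] in
theorem multinomial_not_dvd {t : ℕ} (ht : m * t = p - 1) :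
    ¬ p ∣ Nat.multinomial Finset.univ (fun _ : Fin m => t) := by
  intro h
  have h1 := Nat.multinomial_spec (Finset.univ : Finset (Fin m)) (fun _ => t)
  have h2 : p ∣ (∑ _i : Fin m, t).factorial := by
    rw [← h1]
    exact h.mul_left _
  rw [Finset.sum_const, Finset.card_univ, Fintype.card_fin, smul_eq_mul, ht,
    hp.out.dvd_factorial] at h2
  have := hp.out.two_le
  omega

theorem core (hm : m ≠ 0) (hpm : m ∣ p - 1) (Q : MvPolynomial (Fin m) L)
    (P : Fin m → MvPolynomial (Fin m) L)
    (h : Q ^ 2 = (∑ i : Fin m, X i ^ m) * ∑ i, (pderiv i (P i) * Q - P i * pderiv i Q)) :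
    Q = 0 := by
  obtain ⟨t, ht⟩ := hpm
  have hp2 : 2 ≤ p := hp.out.two_le
  set F : MvPolynomial (Fin m) L := ∑ i : Fin m, X i ^ m with hF
  have hkey := key_identity (p := p) F Q P h
  have hFhom : (F ^ (p - 1)).IsHomogeneous (m * (p - 1)) := by
    refine IsHomogeneous.pow ?_ _
    exact IsHomogeneous.sum _ _ _ fun i _ => by
      simpa using (isHomogeneous_X L i).pow m
  by_contra hQ
  obtain ⟨β, hβ⟩ := MvPolynomial.ne_zero_iff.mp hQ
  let o : Fin m →₀ ℕ := Finsupp.equivFunOnFinite.symm fun _ => p - 1
  have ho : ∀ i, o i = p - 1 := fun i => rfl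
  have hzero : coeff (p • β + o) (F ^ (p - 1) * Q ^ p) = 0 := by
    rw [hkey, coeff_sum]
    refine Finset.sum_eq_zero fun i _ => coeff_pderiv_eq_zero _ _ _ ?_
    have : (p • β + o) i = p * β i + (p - 1) := rfl
    have e : (p * β i + (p - 1)) + 1 = p * (β i + 1) := by
      have : p - 1 + 1 = p := by omega
      rw [mul_add, mul_one]
      omega
    rw [this, ← Nat.cast_add_one, e, Nat.cast_mul, CharP.cast_eq_zero, zero_mul]
  have hcoeff : ∀ u : Fin m →₀ ℕ, coeff u (Q ^ p) = (coeff u (expand p Q)) ^ p := by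
    intro u
    rw [← map_frobenius_expand p, coeff_map]
    rfl
  have hmain : coeff (p • β + o) (Q ^ p * F ^ (p - 1))
      = coeff (p • β) (Q ^ p) * coeff o (F ^ (p - 1)) := by
    rw [coeff_mul, Finset.sum_eq_single (p • β, o)]
    · rintro ⟨u, v⟩ huv hne
      rw [Finset.HasAntidiagonal.mem_antidiagonal] at huv
      simp only at huv ⊢
      by_contra hnz
      have hu := left_ne_zero_of_mul hnz
      have hv := right_ne_zero_of_mul hnz
      rw [hcoeff] at hu
      have hu' : coeff u (expand p Q) ≠ 0 := fun h0 => hu (by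
        rw [h0, zero_pow (by omega)])
      have hdvd : ∀ i, p ∣ u i := fun i => by
        by_contra hnd
        exact hu' (coeff_expand_of_not_dvd _ hnd)
      have hdegv : ∑ i, v i = m * (p - 1) := by
        have := hFhom hv
        rw [← this, ← Finsupp.degree_eq_sum, Finsupp.degree_eq_weight_one]
        rfl
      have hi : ∀ i, u i + v i = p * β i + (p - 1) := fun i => by
        have := congrArg (fun w : Fin m →₀ ℕ => w i) huv
        exact this
      have hle : ∀ i, u i ≤ p * β i := by
        intro i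
        obtain ⟨g, hg⟩ := hdvd i
        have h1 := hi i
        rw [hg] at h1 ⊢
        have h2 : p * g < p * (β i + 1) := by
          rw [mul_add, mul_one]
          omega
        have h3 : g < β i + 1 := Nat.lt_of_mul_lt_mul_left h2
        exact Nat.mul_le_mul_left p (by omega)
      have hsum : ∑ i, u i = ∑ i, p * β i := by
        have h4 : ∑ i, (u i + v i) = ∑ i, (p * β i + (p - 1)) :=
          Finset.sum_congr rfl fun i _ => hi i
        rw [Finset.sum_add_distrib, Finset.sum_add_distrib, hdegv, Finset.sum_const,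
          Finset.card_univ, Fintype.card_fin, smul_eq_mul] at h4
        omega
      have heq : ∀ i, u i = p * β i := fun i =>
        (Finset.sum_eq_sum_iff_of_le fun i _ => hle i).mp hsum i (Finset.mem_univ i)
      apply hne
      have e1 : u = p • β := Finsupp.ext fun i => heq i
      have e2 : v = o := Finsupp.ext fun i => by
        have h1 := hi i
        have h2 := heq i
        have h3 := ho i
        omega
      rw [e1, e2]
    · intro hnm
      exfalso
      apply hnm
      rw [Finset.HasAntidiagonal.mem_antidiagonal]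
  rw [mul_comm, hmain, hcoeff, coeff_expand_smul p (by omega)] at hzero
  rcases mul_eq_zero.mp hzero with h0 | h0
  · exact hβ (pow_eq_zero_iff (by omega) |>.mp h0)
  · have h1 := coeff_fermat (L := L) hm t
    have h2 : o = Finsupp.equivFunOnFinite.symm fun _ : Fin m => m * t := by
      ext i
      show p - 1 = m * t
      exact ht
    rw [← h2, ← ht] at h1
    rw [hF, h1, CharP.cast_eq_zero_iff L p] at h0
    exact multinomial_not_dvd ht.symm h0

end core

end Q48.Fermat
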