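import Mathlib
import Pool.Agent.Q48.Fermat.Char

/-!
Reduction to positive characteristic.
-/

namespace Q48.Fermat

open MvPolynomial

variable {m : ℕ}

/-- the identity studied -/
def Ident {A : Type*} [CommRing A] (P : Fin m → MvPolynomial (Fin m) A)
    (Q : MvPolynomial (Fin m) A) : Prop :=
  Q ^ 2 = (∑ i : Fin m, X i ^ m) * ∑ i, (pderiv i (P i) * Q - P i * pderiv i Q)

theorem Ident.map {A B : Type*} [CommRing A] [CommRing B] (φ : A →+* B)
    {P : Fin m → MvPolynomial (Fin m) A} {Q : MvPolynomial (Fin m) A} (h : Ident P Q) :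
    Ident (fun i => MvPolynomial.map φ (P i)) (MvPolynomial.map φ Q) := by
  unfold Ident at h ⊢
  have := congrArg (MvPolynomial.map φ) h
  simpa only [map_pow, map_mul, map_sum, map_sub, map_X, pderiv_map] using this

theorem Ident.of_map {A B : Type*} [CommRing A] [CommRing B] {φ : A →+* B}
    (hφ : Function.Injective φ)
    {P : Fin m → MvPolynomial (Fin m) A} {Q : MvPolynomial (Fin m) A}
    (h : Ident (fun i => MvPolynomial.map φ (P i)) (MvPolynomial.map φ Q)) : Ident P Q := by
  unfold Ident at h ⊢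
  apply MvPolynomial.map_injective φ hφ
  simpa only [map_pow, map_mul, map_sum, map_sub, map_X, pderiv_map] using h

theorem Ident.smul {A : Type*} [CommRing A] (b : A)
    {P : Fin m → MvPolynomial (Fin m) A} {Q : MvPolynomial (Fin m) A} (h : Ident P Q) :
    Ident (fun i => C b * P i) (C b * Q) := by
  unfold Ident at h ⊢
  have e : ∑ i, (pderiv i (C b * P i) * (C b * Q) - C b * P i * pderiv i (C b * Q))
      = C b ^ 2 * ∑ i, (pderiv i (P i) * Q - P i * pderiv i Q) := by
    rw [Finset.mul_sum]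
    refine Finset.sum_congr rfl fun i _ => ?_
    rw [pderiv_C_mul, pderiv_C_mul]
    ring
  rw [e, mul_pow, h]
  ring

/-- integral domains of characteristic zero which are integral over the integers -/
theorem integral_case (hm : m ≠ 0) {B : Type*} [CommRing B] [IsDomain B] [CharZero B]
    [Algebra.IsIntegral ℤ B] {P : Fin m → MvPolynomial (Fin m) B} {Q : MvPolynomial (Fin m) B}
    (h : Ident P Q) : Q = 0 := by
  by_contra hQ
  obtain ⟨β, hβ⟩ := MvPolynomial.ne_zero_iff.mp hQ
  set c := coeff β Q with hc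
  have hint : IsIntegral ℤ c := Algebra.IsIntegral.isIntegral c
  have hI : (Ideal.span {c}).comap (algebraMap ℤ B) ≠ ⊥ :=
    Ideal.comap_ne_bot_of_integral_mem hβ (Ideal.mem_span_singleton_self c) hint
  obtain ⟨N, hN, hN0⟩ := Submodule.exists_mem_ne_zero_of_ne_bot hI
  obtain ⟨p, hp, hpN, hp1⟩ := Nat.exists_prime_gt_modEq_one N.natAbs hm
  have : Fact p.Prime := ⟨hp⟩
  have hpm : m ∣ p - 1 := (Nat.modEq_iff_dvd' hp.one_le).mp hp1.symm
  have hpZ : Prime (p : ℤ) := Nat.prime_iff_prime_int.mp hp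
  have hmax : (Ideal.span {(p : ℤ)}).IsMaximal := by
    refine ((Ideal.span_singleton_prime hpZ.ne_zero).mpr hpZ).isMaximal ?_
    rw [Ne, Ideal.span_singleton_eq_bot]
    exact hpZ.ne_zero
  obtain ⟨𝔓, h𝔓, hcomap⟩ := Ideal.exists_ideal_over_maximal_of_isIntegral (S := B)
    (Ideal.span {(p : ℤ)}) (by
      have : RingHom.ker (algebraMap ℤ B) = ⊥ := by
        rw [← RingHom.injective_iff_ker_eq_bot]
        exact (algebraMap ℤ B).injective_int
      rw [this]
      exact bot_le)
  have := h𝔓
  let : Field (B ⧸ 𝔓) := Ideal.Quotient.field 𝔓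
  have : CharP (B ⧸ 𝔓) p := ⟨fun n => by
    have h1 : ((n : ℕ) : B ⧸ 𝔓) = Ideal.Quotient.mk 𝔓 (algebraMap ℤ B (n : ℤ)) := by simp
    rw [h1, Ideal.Quotient.eq_zero_iff_mem, ← Ideal.mem_comap, hcomap, Ideal.mem_span_singleton]
    exact Int.natCast_dvd_natCast⟩
  have h2 := h.map (Ideal.Quotient.mk 𝔓)
  have h3 := core (p := p) hm hpm _ _ h2
  have h4 : Ideal.Quotient.mk 𝔓 c = 0 := by
    have := congrArg (coeff β) h3
    rwa [coeff_map, coeff_zero] at this
  rw [Ideal.Quotient.eq_zero_iff_mem] at h4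
  have h5 : algebraMap ℤ B N ∈ 𝔓 := by
    have h6 : algebraMap ℤ B N ∈ Ideal.span {c} := hN
    exact (Ideal.span_singleton_le_iff_mem 𝔓).mpr h4 h6
  rw [← Ideal.mem_comap, hcomap, Ideal.mem_span_singleton] at h5
  have h7 := Int.natAbs_dvd_natAbs.mpr h5
  rw [Int.natAbs_natCast] at h7
  exact absurd (Nat.le_of_dvd (Int.natAbs_pos.mpr hN0) h7) (by omega)

/-- the case of a number field -/
theorem numberField_case (hm : m ≠ 0) {E : Type*} [Field E] [CharZero E] [Algebra ℚ E]
    [FiniteDimensional ℚ E]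
    {P : Fin m → MvPolynomial (Fin m) E} {Q : MvPolynomial (Fin m) E}
    (h : Ident P Q) : Q = 0 := by
  classical
  let B := integralClosure ℤ E
  have : Algebra.IsIntegral ℤ B := inferInstance
  have : IsFractionRing B E := integralClosure.isFractionRing_of_finite_extension ℚ E
  obtain ⟨b, hb⟩ := IsLocalization.exist_integer_multiples_of_finset (nonZeroDivisors B)
    (Q.coeffs ∪ Finset.univ.biUnion fun i => (P i).coeffs)
  have hlift : ∀ G : MvPolynomial (Fin m) E,
      (∀ a ∈ G.coeffs, IsLocalization.IsInteger B ((b : B) • a)) →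
      ∃ G' : MvPolynomial (Fin m) B, MvPolynomial.map (algebraMap B E) G'
        = C (algebraMap B E (b : B)) * G := by
    intro G hG
    have : C (algebraMap B E (b : B)) * G ∈ Set.range (MvPolynomial.map (algebraMap B E)) := by
      rw [mem_range_map_iff_coeffs_subset]
      intro a ha
      rw [Finset.mem_coe, mem_coeffs_iff] at ha
      obtain ⟨n, hn, rfl⟩ := ha
      rw [coeff_C_mul]
      have hn' : coeff n G ≠ 0 := by
        rw [mem_support_iff, coeff_C_mul] at hn
        exact right_ne_zero_of_mul hn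
      obtain ⟨y, hy⟩ := hG (coeff n G) (coeff_mem_coeffs n hn')
      refine ⟨y, ?_⟩
      rw [hy, Algebra.smul_def]
    exact this
  obtain ⟨Q', hQ'⟩ := hlift Q fun a ha => hb a (Finset.mem_union_left _ ha)
  choose P' hP' using fun i => hlift (P i) fun a ha => hb a (Finset.mem_union_right _
    (Finset.mem_biUnion.mpr ⟨i, Finset.mem_univ i, ha⟩))
  have h1 : Ident P' Q' := by
    refine Ident.of_map (φ := algebraMap B E) (IsFractionRing.injective B E) ?_
    have h2 := h.smul (algebraMap B E (b : B))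
    rw [← hQ'] at h2
    simp only [← hP'] at h2
    exact h2
  have h3 := integral_case hm h1
  rw [h3, map_zero] at hQ'
  have hb0 : algebraMap B E (b : B) ≠ 0 := by
    have := nonZeroDivisors.ne_zero b.2
    rwa [Ne, map_eq_zero_iff _ (IsFractionRing.injective B E)]
  have h4 : (C (algebraMap B E (b : B)) : MvPolynomial (Fin m) E) ≠ 0 := by
    rwa [Ne, C_eq_zero]
  exact (mul_eq_zero.mp hQ'.symm).resolve_left h4

/-- a nonzero finitely generated algebra over the rationals maps to a number field -/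
theorem exists_numberField {A : Type*} [CommRing A] [Nontrivial A] [Algebra ℚ A]
    [Algebra.FiniteType ℚ A] : ∃ (M : Ideal A) (_ : M.IsMaximal), Module.Finite ℚ (A ⧸ M) := by
  obtain ⟨M, hM⟩ := Ideal.exists_maximal A
  refine ⟨M, hM, ?_⟩
  have h1 : Algebra.FiniteType ℚ (A ⧸ M) :=
    Algebra.FiniteType.of_surjective (Ideal.Quotient.mkₐ ℚ M) (Ideal.Quotient.mkₐ_surjective ℚ M)
  let f := Ideal.Quotient.field M
  exact finite_of_finite_type_of_isJacobsonRing ℚ (A ⧸ M)

theorem fg_case (hm : m ≠ 0) {A : Type*} [CommRing A] [Nontrivial A] [Algebra ℚ A]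
    [Algebra.FiniteType ℚ A]
    {P : Fin m → MvPolynomial (Fin m) A} {Q : MvPolynomial (Fin m) A}
    (h : Ident P Q) (β : Fin m →₀ ℕ) : ¬ IsUnit (coeff β Q) := by
  obtain ⟨M, hM, hfin⟩ := exists_numberField (A := A)
  let f : Field (A ⧸ M) := Ideal.Quotient.field M
  have hchar : CharZero (A ⧸ M) := algebraRat.charZero (A ⧸ M)
  have h2 := @numberField_case m hm (A ⧸ M) f hchar (Ideal.Quotient.algebra ℚ) hfin _ _
    (h.map (Ideal.Quotient.mk M))
  have h3 : Ideal.Quotient.mk M (coeff β Q) = 0 := by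
    have := congrArg (coeff β) h2
    rwa [coeff_map, coeff_zero] at this
  intro hu
  have h4 := hu.map (Ideal.Quotient.mk M)
  rw [h3] at h4
  exact not_isUnit_zero h4

/-- the general case -/
theorem main_case (hm : m ≠ 0) {k : Type*} [Field k] [CharZero k]
    {P : Fin m → MvPolynomial (Fin m) k} {Q : MvPolynomial (Fin m) k}
    (h : Ident P Q) : Q = 0 := by
  classical
  by_contra hQ
  obtain ⟨β, hβ⟩ := MvPolynomial.ne_zero_iff.mp hQ
  set c := coeff β Q with hc
  let s : Finset k := insert c⁻¹ (Q.coeffs ∪ Finset.univ.biUnion fun i => (P i).coeffs)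
  let A := Algebra.adjoin ℚ (s : Set k)
  have : Algebra.FiniteType ℚ A := by
    rw [← Subalgebra.fg_iff_finiteType]
    exact Subalgebra.fg_adjoin_finset s
  have hs : ∀ a ∈ s, a ∈ A := fun a ha => Algebra.subset_adjoin (by exact_mod_cast ha)
  have hlift : ∀ G : MvPolynomial (Fin m) k, G.coeffs ⊆ s →
      ∃ G' : MvPolynomial (Fin m) A, MvPolynomial.map (algebraMap A k) G' = G := by
    intro G hG
    have : G ∈ Set.range (MvPolynomial.map (algebraMap A k)) := by
      rw [mem_range_map_iff_coeffs_subset]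
      intro a ha
      exact ⟨⟨a, hs a (hG (by exact_mod_cast ha))⟩, rfl⟩
    exact this
  obtain ⟨Q', hQ'⟩ := hlift Q fun a ha =>
    Finset.mem_insert_of_mem (Finset.mem_union_left _ ha)
  choose P' hP' using fun i => hlift (P i) fun a ha =>
    Finset.mem_insert_of_mem (Finset.mem_union_right _
      (Finset.mem_biUnion.mpr ⟨i, Finset.mem_univ i, ha⟩))
  have hinj : Function.Injective (algebraMap A k) := Subtype.val_injective
  have h1 : Ident P' Q' := by
    refine Ident.of_map hinj ?_
    rw [hQ']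
    simp only [hP']
    exact h
  have h4 : algebraMap A k (coeff β Q') = c := by
    rw [← coeff_map, hQ']
  let ci : A := ⟨c⁻¹, hs _ (Finset.mem_insert_self _ _)⟩
  have h5 : coeff β Q' * ci = 1 := by
    apply hinj
    rw [map_mul, h4, map_one]
    exact mul_inv_cancel₀ hβ
  exact fg_case hm h1 β (IsUnit.of_mul_eq_one _ h5)

end Q48.Fermat
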